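import Pool.Agent.H67.PI.Emb

/-!
# Finitely generated associative PI algebras embed into 2-generated ones

Over every field (of any characteristic), every finitely generated associative PI algebra embeds
into a 2-generated associative PI algebra.

Proof: let `A` be generated by `a 0, ..., a (k-1)` and let `C` be the unitization of `A`. In
`M_N(C)`, `N = 4 k + 20`, take the cyclic permutation matrix `x` and the diagonal matrix `y` with
entries `1, 1, 1` at the places `0, 1, 3` and `a j` at the place `4 j + 8`. The algebra generated by
`x` and `y` contains `e_00` and then all `(a j) e_00`. Matrices over `C` satisfy a multilinear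
identity (codimension count, imported from the starting files).
-/

set_option autoImplicit false

namespace Pool.Agent.V7H58.Moved.AssociativeAllFields

open Pool.Agent.H67.PI

universe u v

/-- An associative algebra `A` over a field `F` (not assumed unital) is PI: some nonzero
noncommutative polynomial `f` with zero constant term vanishes on `A`. (It is evaluated in the
algebra `F ⊕ A` obtained by adjoining a unit.) -/
def IsPI (F : Type u) [Field F] (A : Type v) [NonUnitalRing A] [Module F A]
    [IsScalarTower F A A] [SMulCommClass F A A] : Prop :=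
  ∃ (n : ℕ) (f : FreeAlgebra F (Fin n)), f ≠ 0 ∧ FreeAlgebra.algebraMapInv f = 0 ∧
    ∀ a : Fin n → A,
      FreeAlgebra.lift F (fun i => (Unitization.inr (a i) : Unitization F A)) f = 0

/-- For every field `F`, every associative PI algebra `A` over `F` generated by a finite
set embeds into an associative PI algebra generated by two elements. -/
theorem result (F : Type u) [Field F] (A : Type v) [NonUnitalRing A] [Module F A]
    [IsScalarTower F A A] [SMulCommClass F A A] (s : Set A) (hs : s.Finite)
    (hgen : NonUnitalAlgebra.adjoin F s = ⊤) (hA : IsPI F A) :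
    ∃ (M : Type (max u v)) (_ : NonUnitalRing M) (_ : Module F M) (_ : IsScalarTower F M M)
      (_ : SMulCommClass F M M) (x y : M) (φ : A →ₙₐ[F] M), Function.Injective φ ∧
      NonUnitalAlgebra.adjoin F {x, y} = ⊤ ∧ IsPI F M := by
  classical
  obtain ⟨k, a, rfl⟩ : ∃ (k : ℕ) (a : Fin k → A), Set.range a = s := by
    have := hs.to_subtype
    obtain ⟨k, ⟨e⟩⟩ := Finite.exists_equiv_fin s
    refine ⟨k, fun i => (e.symm i : A), ?_⟩
    ext x
    constructor
    · rintro ⟨i, rfl⟩
      exact (e.symm i).2
    · intro hx
      exact ⟨e ⟨x, hx⟩, by simp⟩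
  obtain ⟨n, f, hf, -, hfA⟩ := hA
  set N : ℕ := 4 * k + 20 with hN
  have : NeZero N := ⟨by omega⟩
  obtain ⟨m, α, hm, hα, hMα⟩ := unitization_matrix f hf hfA (ZMod N)
  let a' : ℕ → Unitization F A := fun j => if hj : j < k then Unitization.inr (a ⟨j, hj⟩) else 0
  let x : Matrix (ZMod N) (ZMod N) (Unitization F A) := P (Unitization F A) N 1
  let y : Matrix (ZMod N) (ZMod N) (Unitization F A) := Matrix.diagonal (h N a')
  let S := NonUnitalAlgebra.adjoin F ({x, y} : Set (Matrix (ZMod N) (ZMod N) (Unitization F A)))
  have hx : x ∈ S := NonUnitalAlgebra.subset_adjoin F (by simp)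
  have hy : y ∈ S := NonUnitalAlgebra.subset_adjoin F (by simp)
  let ψ : A →ₙₐ[F] Matrix (ZMod N) (ZMod N) (Unitization F A) :=
    { toFun := fun b => Matrix.single 0 0 (Unitization.inr b)
      map_smul' := by
        intro t b
        rw [Unitization.inr_smul]
        exact (Matrix.smul_single t 0 0 _).symm
      map_zero' := by simp
      map_add' := by
        intro b b'
        rw [Unitization.inr_add, Matrix.single_add]
      map_mul' := by
        intro b b'
        rw [Unitization.inr_mul, Matrix.single_mul_single_same] }
  have hψinj : Function.Injective ψ := by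
    intro b b' hbb
    have h1 := congrArg (fun X : Matrix (ZMod N) (ZMod N) (Unitization F A) => X 0 0) hbb
    have h2 : (Unitization.inr b : Unitization F A) = Unitization.inr b' := by
      simpa [ψ] using h1
    exact Unitization.inr_injective h2
  have hψS : ∀ b, ψ b ∈ S := by
    have h1 : NonUnitalAlgebra.adjoin F (Set.range a) ≤ S.comap ψ := by
      rw [NonUnitalAlgebra.adjoin_le_iff]
      rintro _ ⟨j, rfl⟩
      have h3 := assoc_gen F (N := N) (by omega) (by omega) a' S hx hy j.val (by omega)
      have h4 : a' j.val = Unitization.inr (a j) := by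
        simp [a']
      rw [h4] at h3
      exact h3
    intro b
    have hb : b ∈ NonUnitalAlgebra.adjoin F (Set.range a) := by rw [hgen]; trivial
    exact h1 hb
  obtain ⟨g, hg⟩ := adjoin_two (F := F) x y
  refine ⟨S, inferInstance, inferInstance, inferInstance, inferInstance, g 0, g 1,
    NonUnitalAlgHom.codRestrict ψ S hψS, ?_, ?_, ?_⟩
  · intro b b' hbb
    apply hψinj
    exact congrArg Subtype.val hbb
  · rw [← hg]
    congr 1
    ext z
    simp only [Set.mem_insert_iff, Set.mem_singleton_iff, Set.mem_range]
    constructor
    · rintro (rfl | rfl)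
      · exact ⟨0, rfl⟩
      · exact ⟨1, rfl⟩
    · rintro ⟨i, rfl⟩
      fin_cases i
      · exact Or.inl rfl
      · exact Or.inr rfl
  · exact ⟨m, mlp α, mlp_ne_zero α hα, mlp_const hm α, fun b => mlp_sub S hm α hMα b⟩

end Pool.Agent.V7H58.Moved.AssociativeAllFields
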